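import Pool.Agent.Run7.h991.BC.Final

/-!
# MP_9b3711_an: Besov versus Hardy-Bessel capacities for `0 < p < 1`

For every `0 < p < 1` and every `α > 0` the capacities `A_{α,p,p}` (Besov space `Λ^{pp}_α`) and
`B_{α,p}` (Lizorkin-Triebel space `F^{p2}_α`, the Bessel potentials of `H^p`) have the same
compact null sets; they are even comparable, with a constant which depends only on `n`, `α`, `p`
and the Littlewood-Paley cut-off.
-/

set_option autoImplicit false

open MeasureTheory FourierTransform SchwartzMap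
open scoped ENNReal ContDiff

namespace Pool.Agent.Results.MP_9b3711_an.SameNullSets

open Run7.h991.BC

/-- Let `n ≥ 1`, `0 < p < 1`, `α > 0`, let `Φ` be a Littlewood-Paley cut-off (such functions
exist), and let `D` be any class of test functions between `C_c^∞` and the Schwartz class.  Then a
compact set is null for the Besov capacity `A_{α,p,p}` if and only if it is null for the
Hardy-Bessel capacity `B_{α,p}`; in fact `B ≤ A ≤ C B`. -/
theorem result (n : ℕ) (hn : 1 ≤ n) :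
    (∃ Φ : 𝓢(E n, ℂ), IsCutoff Φ) ∧
    ∀ Φ : 𝓢(E n, ℂ), IsCutoff Φ → ∀ α p : ℝ, 0 < α → 0 < p → p < 1 →
      ∃ C : ℝ≥0∞, C ≠ ⊤ ∧ ∀ D : Set (E n → ℝ),
        (∀ u : E n → ℝ, ContDiff ℝ ∞ u → HasCompactSupport u → u ∈ D) →
        (∀ u ∈ D, ∃ f : 𝓢(E n, ℝ), (f : E n → ℝ) = u) →
        ∀ K : Set (E n), IsCompact K →
          (cap (besov Φ α p) D K = 0 ↔ cap (triebel Φ α p) D K = 0) ∧
          cap (triebel Φ α p) D K ≤ cap (besov Φ α p) D K ∧
          cap (besov Φ α p) D K ≤ C * cap (triebel Φ α p) D K := by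
  refine ⟨final_cut n, fun Φ hΦ α p hα hp hp1 => ?_⟩
  obtain ⟨C, hC, h⟩ := final_fin n hn Φ hΦ α p hα hp hp1
  refine ⟨C, hC, fun D hD1 hD2 K hK => ?_⟩
  obtain ⟨h1, h2⟩ := h D hD1 hD2 K hK
  refine ⟨⟨fun h0 => ?_, fun h0 => ?_⟩, h1, h2⟩
  · exact nonpos_iff_eq_zero.1 (h1.trans h0.le)
  · rw [h0, mul_zero] at h2
    exact nonpos_iff_eq_zero.1 h2

end Pool.Agent.Results.MP_9b3711_an.SameNullSets
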